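import Pool.Agent.H.MP_1b82cc_an.Defs

open Set Filter Topology Metric Polynomial
open scoped NNReal

namespace Pool.Agent.H.MP_1b82cc_an

noncomputable def st (a : OnePoint ℂ) : ℂ × ℝ :=
  a.elim (0, 0) fun z => (z / (1 + ‖z‖ ^ 2 : ℝ), 1 / (1 + ‖z‖ ^ 2))

lemma chi_sq (a b : OnePoint ℂ) :
    0 ≤ chi a b ∧ chi a b ^ 2 = ‖(st a).1 - (st b).1‖ ^ 2 + ((st a).2 - (st b).2) ^ 2 := by
  have p : ∀ z : ℂ, 0 < 1 + ‖z‖ ^ 2 := fun z => by positivity
  have n : ∀ z : ℂ, ‖z / (1 + ‖z‖ ^ 2 : ℝ)‖ = ‖z‖ / (1 + ‖z‖ ^ 2) := fun z => by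
    rw [norm_div, Complex.norm_real, Real.norm_of_nonneg (p z).le]
  induction a with
  | infty => induction b with
    | infty => simp [chi, st]
    | coe w =>
      simp only [chi, st, OnePoint.elim_infty, OnePoint.elim_some, zero_sub, norm_neg, n, div_pow,
        Real.sq_sqrt (p w).le]
      exact ⟨by positivity, by have := p w; field_simp; ring⟩
  | coe z => induction b with
    | infty =>
      simp only [chi, st, OnePoint.elim_infty, OnePoint.elim_some, sub_zero, n, div_pow,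
        Real.sq_sqrt (p z).le]
      exact ⟨by positivity, by have := p z; field_simp; ring⟩
    | coe w =>
      simp only [chi, st, OnePoint.elim_some, div_pow, mul_pow, Real.sq_sqrt (p z).le,
        Real.sq_sqrt (p w).le]
      refine ⟨by positivity, ?_⟩
      have h1 := p z
      have h2 := p w
      simp only [Complex.sq_norm, Complex.normSq_apply, Complex.sub_re, Complex.sub_im,
        Complex.div_ofReal_re, Complex.div_ofReal_im] at *
      field_simp
      ring

lemma chi_le (a b : OnePoint ℂ) : chi a b ≤ 2 * dist (st a) (st b) := by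
  refine le_of_sq_le_sq ?_ (by positivity) |> fun k => k
  have h1 : ‖(st a).1 - (st b).1‖ ≤ dist (st a) (st b) := by rw [← dist_eq_norm]; exact le_max_left _ _
  have h2 : |(st a).2 - (st b).2| ≤ dist (st a) (st b) := le_max_right _ _
  rw [(chi_sq a b).2, ← sq_abs ((st a).2 - (st b).2)]
  have := pow_le_pow_left₀ (norm_nonneg _) h1 2
  have := pow_le_pow_left₀ (abs_nonneg _) h2 2
  nlinarith [sq_nonneg (dist (st a) (st b))]

lemma le_chi (a b : OnePoint ℂ) : dist (st a) (st b) ≤ chi a b := by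
  obtain ⟨h1, h2⟩ := chi_sq a b
  refine max_le (le_of_sq_le_sq ?_ h1) (le_of_sq_le_sq ?_ h1)
  · rw [dist_eq_norm, h2]; nlinarith [sq_nonneg ((st a).2 - (st b).2)]
  · rw [Real.dist_eq, sq_abs, h2]; nlinarith [sq_nonneg ‖(st a).1 - (st b).1‖]

lemma st_le (z w : ℂ) : dist (st z) (st w) ≤ ‖z - w‖ := (le_chi _ _).trans (div_le_self (norm_nonneg _)
  (one_le_mul_of_one_le_of_one_le (Real.one_le_sqrt.2 (by simp)) (Real.one_le_sqrt.2 (by simp))))

lemma st_inf : Tendsto (fun z : ℂ => st z) (cocompact ℂ) (𝓝 (st OnePoint.infty)) := by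
  rw [tendsto_iff_dist_tendsto_zero]
  refine squeeze_zero (fun _ => dist_nonneg) (fun z => le_chi _ _) ?_
  exact tendsto_const_nhds.div_atTop (Real.tendsto_sqrt_atTop.comp (tendsto_atTop_add_const_left _ _
    ((tendsto_pow_atTop two_ne_zero).comp tendsto_norm_cocompact_atTop)))

lemma st_c' : Continuous fun z : ℂ => st z :=
  (LipschitzWith.of_dist_le_mul (K := 1) fun z w => by simpa [dist_eq_norm] using st_le z w).continuous

lemma st_c : Continuous st := (OnePoint.continuous_iff _).2 ⟨by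
  rw [coclosedCompact_eq_cocompact]; exact st_inf, st_c'⟩

lemma near (a : OnePoint ℂ) {ε : ℝ} (hε : 0 < ε) : ∃ w : ℂ, dist (st w) (st a) < ε := by
  induction a with
  | infty => exact (st_inf.eventually (ball_mem_nhds _ hε)).exists
  | coe z => exact ⟨z, by simpa⟩

lemma disc {c : ℂ} {r ε : ℝ} (hr : 0 < r) (hε : 0 < ε) {f : ℂ → OnePoint ℂ}
    (hc : ContinuousOn f (closedBall c r)) (h : (∀ z ∈ ball c r, f z = OnePoint.infty) ∨
      ∃ g : ℂ → ℂ, DifferentiableOn ℂ g (ball c r) ∧ ∀ z ∈ ball c r, f z = g z) :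
    ∃ p : ℂ[X], ∀ z ∈ closedBall c r, dist (st (p.eval z : ℂ)) (st (f z)) < ε := by
  obtain ⟨δ, d0, hδ⟩ := Metric.uniformContinuousOn_iff_le.1 ((isCompact_closedBall c r
    ).uniformContinuousOn_of_continuous (st_c.comp_continuousOn hc)) (ε / 2) (half_pos hε)
  obtain ⟨t, t0, t1, t2⟩ : ∃ t : ℝ, 0 < t ∧ t < 1 ∧ (1 - t) * r ≤ δ := by
    refine ⟨1 - min (1 / 2) (δ / r), by linarith [min_le_left (1 / 2) (δ / r)], by
      have : 0 < min (1 / 2) (δ / r) := by positivity
      linarith, ?_⟩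
    rw [sub_sub_cancel, ← le_div_iff₀ hr]
    exact min_le_right _ _
  have n : ∀ z ∈ closedBall c r, ‖(t : ℂ) * (z - c)‖ ≤ t * r := fun z hz => by
    rw [norm_mul, Complex.norm_real, Real.norm_of_nonneg t0.le]
    gcongr
    exact mem_closedBall_iff_norm.1 hz
  have tr : t * r < r := mul_lt_of_lt_one_left hr t1
  have m : ∀ z ∈ closedBall c r, c + t * (z - c) ∈ ball c r := fun z hz => by
    simpa using (n z hz).trans_lt tr
  suffices ∃ p : ℂ[X], ∀ z ∈ closedBall c r, dist (st (p.eval z : ℂ)) (st (f (c + t * (z - c)))) < ε / 2 by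
    obtain ⟨p, hp⟩ := this
    refine ⟨p, fun z hz => (dist_triangle _ (st (f (c + t * (z - c)))) _).trans_lt ?_⟩
    have := hδ _ (ball_subset_closedBall (m z hz)) z hz (by
      rw [dist_eq_norm, show c + t * (z - c) - z = (t - 1 : ℝ) * (z - c) by push_cast; ring, norm_mul,
        Complex.norm_real, Real.norm_eq_abs, abs_of_neg (by linarith), neg_sub]
      refine le_trans ?_ t2
      gcongr
      exact mem_closedBall_iff_norm.1 hz)
    simp only [Function.comp] at this
    linarith [hp z hz]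
  rcases h with h | ⟨g, dg, h⟩
  · obtain ⟨w, hw⟩ := near OnePoint.infty (half_pos hε)
    exact ⟨C w, fun z hz => by rwa [eval_C, h _ (m z hz)]⟩
  obtain ⟨R, R1, R2⟩ := exists_between tr
  obtain ⟨R', R3, R4⟩ := exists_between R1
  lift R to ℝ≥0 using by nlinarith [mul_pos t0 hr]
  lift R' to ℝ≥0 using by nlinarith [mul_pos t0 hr]
  have := ((dg.mono (closedBall_subset_ball R2)).hasFPowerSeriesOnBall
    (by exact_mod_cast (mul_pos t0 hr).trans R1)).tendstoUniformlyOn (r' := R') (by exact_mod_cast R4)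
  obtain ⟨N, hN⟩ := ((Metric.tendstoUniformlyOn_iff.1 this) _ (half_pos hε)).exists
  refine ⟨∑ k ∈ Finset.range N, C ((cauchyPowerSeries g c R).coeff k) * (C (t : ℂ) * (X - C c)) ^ k,
    fun z hz => ?_⟩
  rw [h _ (m z hz)]
  refine (st_le _ _).trans_lt ?_
  have := hN (t * (z - c)) (mem_ball_zero_iff.2 ((n z hz).trans_lt R3))
  rw [dist_comm, dist_eq_norm] at this
  refine lt_of_eq_of_lt ?_ this
  congr 2
  simp only [FormalMultilinearSeries.partialSum, eval_finsetSum,
    FormalMultilinearSeries.apply_eq_pow_smul_coeff]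
  simp [mul_comm]

lemma surg {Y : Set ℂ} (hY : IsPreconnected Y) {c : ℂ} {ρ : ℝ} (h : (Y ∩ closedBall c ρ).Nonempty) :
    IsPreconnected (Y \ ball c ρ ∪ sphere c ρ) := by
  have hZ := IsPreconnected.union' h hY (convex_closedBall c ρ).isPreconnected
  have k : ∀ u v, IsClosed u → IsClosed v → Y \ ball c ρ ∪ sphere c ρ ⊆ u ∪ v →
      (Y \ ball c ρ ∪ sphere c ρ) ∩ (u ∩ v) = ∅ → sphere c ρ ⊆ u → Y \ ball c ρ ∪ sphere c ρ ⊆ u :=
    fun u v hu hv h1 h2 h3 z hz => by
      by_contra j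
      have j2 := (h1 hz).resolve_left j
      have j3 := hz.resolve_right fun i => j (h3 i)
      obtain ⟨y, -, hy⟩ := h
      obtain ⟨w, w1, w2, w3⟩ := isPreconnected_closed_iff.1 hZ (u ∪ closedBall c ρ) (v \ ball c ρ)
        (hu.union isClosed_closedBall) (hv.sdiff isOpen_ball) (fun w hw => by
          by_cases i : w ∈ closedBall c ρ
          · exact .inl (.inr i)
          · have i2 : w ∉ ball c ρ := fun i' => i (ball_subset_closedBall i')
            exact (h1 (.inl ⟨hw.resolve_right i, i2⟩)).imp .inl fun i3 => ⟨i3, i2⟩)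
        ⟨y, .inr hy, .inr hy⟩ ⟨z, .inl j3.1, j2, j3.2⟩
      by_cases i : w ∈ closedBall c ρ
      · have : w ∈ sphere c ρ := le_antisymm i (not_lt.1 w3.2)
        exact h2.subset ⟨.inr this, h3 this, w3.1⟩
      · exact h2.subset ⟨.inl ⟨w1.resolve_right i, w3.2⟩, w2.resolve_right i, w3.1⟩
  refine isPreconnected_iff_subset_of_disjoint_closed.2 fun u v hu hv h1 h2 => ?_
  refine (isPreconnected_iff_subset_of_disjoint_closed.1 (isPreconnected_sphere (by simp) c ρ) u v hu hv
    (subset_union_right.trans h1) (eq_empty_of_subset_empty (h2 ▸ inter_subset_inter_left _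
      subset_union_right))).imp (k u v hu hv h1 h2) (k v u hv hu (union_comm u v ▸ h1) (inter_comm u v ▸ h2))

variable {c : ℕ → ℂ} {r : ℕ → ℝ} {P : ℂ}

lemma cpt (hP : ∀ ε > 0, ∀ᶠ n in atTop, closedBall (c n) (r n) ⊆ ball P ε) (I : Set ℕ) :
    IsCompact ({P} ∪ ⋃ n ∈ I, closedBall (c n) (r n)) := by
  choose N hN using fun n : ℕ => eventually_atTop.1 (hP (1 / (n + 1)) (by positivity))
  have k : ∀ n : ℕ, IsCompact (closedBall P (1 / (n + 1)) ∪ ⋃ i ∈ I ∩ Iio (N n), closedBall (c i) (r i)) :=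
    fun n => (isCompact_closedBall _ _).union (((finite_Iio _).inter_of_right _).isCompact_biUnion
      fun _ _ => isCompact_closedBall _ _)
  convert (k 0).of_isClosed_subset (isClosed_iInter fun n => (k n).isClosed) (iInter_subset _ 0)
  ext z
  simp only [mem_union, mem_singleton_iff, mem_iUnion, mem_iInter]
  constructor
  · rintro (rfl | ⟨i, hi, hz⟩) n
    · exact .inl (mem_closedBall_self (by positivity))
    · rcases lt_or_ge i (N n) with h | h
      exacts [.inr ⟨i, ⟨hi, h⟩, hz⟩, .inl (ball_subset_closedBall (hN n i h hz))]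
  · intro h
    by_cases j : z = P
    · exact .inl j
    obtain ⟨n, hn⟩ := exists_nat_one_div_lt (dist_pos.2 j)
    obtain ⟨i, hi, hz⟩ := (h n).resolve_left (not_le.2 hn)
    exact .inr ⟨i, hi.1, hz⟩

lemma sep (hd : Pairwise (Function.onFun Disjoint fun n => closedBall (c n) (r n)))
    (hP : ∀ ε > 0, ∀ᶠ n in atTop, closedBall (c n) (r n) ⊆ ball P ε) {j : ℕ}
    (hj : P ∉ closedBall (c j) (r j)) : ∃ ρ, r j < ρ ∧ ∀ z ∈ {P} ∪ ⋃ n, closedBall (c n) (r n),
      z ∉ closedBall (c j) (r j) → ρ ≤ dist z (c j) := by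
  obtain ⟨ρ, h1, h2⟩ := (cpt hP {j}ᶜ).exists_forall_le' (f := fun z => dist z (c j)) (by fun_prop)
    (a := r j) (by
      rintro z (rfl | hz)
      · exact not_le.1 hj
      · obtain ⟨i, hi, hz⟩ := mem_iUnion₂.1 hz
        exact not_le.1 (disjoint_left.1 (hd hi) hz))
  refine ⟨ρ, h1, fun z hz k => h2 z (hz.imp_right fun hz => ?_)⟩
  obtain ⟨i, hz⟩ := mem_iUnion.1 hz
  exact mem_iUnion₂.2 ⟨i, by rintro rfl; exact k hz, hz⟩

lemma esc (hd : Pairwise (Function.onFun Disjoint fun n => closedBall (c n) (r n)))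
    (hP : ∀ ε > 0, ∀ᶠ n in atTop, closedBall (c n) (r n) ⊆ ball P ε) {a : ℂ}
    (ha : a ∉ {P} ∪ ⋃ n, closedBall (c n) (r n)) :
    ¬ Bornology.IsBounded (connectedComponentIn ({P} ∪ ⋃ n, closedBall (c n) (r n))ᶜ a) := by
  set L := {P} ∪ ⋃ n, closedBall (c n) (r n)
  have sub : ∀ n, closedBall (c n) (r n) ⊆ L := fun n =>
    (subset_iUnion (fun n => closedBall (c n) (r n)) n).trans subset_union_right
  obtain ⟨c0, r0, h1, h2, h3⟩ : ∃ c0 r0, P ∈ closedBall c0 r0 ∧ a ∉ closedBall c0 r0 ∧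
      ∀ j, P ∈ closedBall (c j) (r j) → closedBall (c j) (r j) = closedBall c0 r0 := by
    by_cases h : ∃ j, P ∈ closedBall (c j) (r j)
    · obtain ⟨j, hj⟩ := h
      refine ⟨_, _, hj, fun k => ha (sub j k), fun i hi => ?_⟩
      obtain rfl : i = j := by_contra fun e => disjoint_left.1 (hd e) hi hj
      rfl
    · exact ⟨P, 0, by simp, fun k => ha (.inl (by simpa using k)), fun j hj => (h ⟨j, hj⟩).elim⟩
  have r0p : 0 ≤ r0 := dist_nonneg.trans h1
  have v0 : r0 < ‖a - c0‖ := by simpa [dist_eq_norm] using h2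
  let R := (fun t : ℝ => a + t * (a - c0)) '' Ici 0
  have nR : ∀ t : ℝ, 0 ≤ t → dist (a + t * (a - c0)) c0 = (1 + t) * ‖a - c0‖ := fun t ht => by
    rw [dist_eq_norm, show a + t * (a - c0) - c0 = (1 + t : ℝ) * (a - c0) by push_cast; ring, norm_mul,
      Complex.norm_real, Real.norm_of_nonneg (by linarith)]
  have R1 : ∀ z ∈ R, ‖a - c0‖ ≤ dist z c0 := by
    rintro _ ⟨t, ht, rfl⟩
    rw [nR t ht]
    nlinarith [mem_Ici.1 ht]
  obtain ⟨N, hN⟩ := eventually_atTop.1 (hP (‖a - c0‖ - r0) (by linarith))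
  have key : ∀ n, ∃ Y, IsPreconnected Y ∧ a ∈ Y ∧ ¬ Bornology.IsBounded Y ∧ Y ⊆ R ∪ Lᶜ ∧
      ∀ j < n, Disjoint Y (closedBall (c j) (r j)) := fun n => by
    induction n with
    | zero =>
      refine ⟨R, isPreconnected_Ici.image _ (by fun_prop), ⟨0, self_mem_Ici, by simp⟩, fun k => ?_,
        subset_union_left, by simp⟩
      obtain ⟨M, M0, hM⟩ := k.subset_closedBall_lt 0 c0
      have t0 : 0 ≤ M / ‖a - c0‖ := div_nonneg M0.le (norm_nonneg _)
      have := hM ⟨_, t0, rfl⟩
      rw [mem_closedBall, nR _ t0, add_mul, div_mul_cancel₀ _ (by linarith)] at this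
      linarith
    | succ n ih =>
      obtain ⟨Y, y1, y2, y3, y4, y5⟩ := ih
      by_cases k : Disjoint Y (closedBall (c n) (r n))
      · exact ⟨Y, y1, y2, y3, y4, fun j hj => (Nat.lt_succ_iff_lt_or_eq.1 hj).elim (y5 j) (· ▸ k)⟩
      obtain ⟨y, k1, k2⟩ := not_disjoint_iff.1 k
      have hn : P ∉ closedBall (c n) (r n) := fun i => by
        have := R1 y ((y4 k1).resolve_right fun i2 => i2 (sub n k2))
        rw [h3 n i, mem_closedBall] at k2
        linarith
      obtain ⟨ρ, p1, p2⟩ := sep hd hP hn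
      obtain ⟨σ, s1, s2⟩ := exists_between (lt_min p1 (not_le.1 fun i => ha (sub n i)))
      have sL : sphere (c n) σ ⊆ Lᶜ := fun z hz i => by
        have := p2 z i (not_le.2 (s1.trans_eq (mem_sphere.1 hz).symm))
        linarith [mem_sphere.1 hz, s2.trans_le (min_le_left _ _)]
      refine ⟨_, surg y1 ⟨y, k1, closedBall_subset_closedBall s1.le k2⟩,
        .inl ⟨y2, not_lt.2 (s2.trans_le (min_le_right _ _)).le⟩, fun i => y3
          ((i.union isBounded_ball).subset fun z hz => (em (z ∈ ball (c n) σ)).symm.imp_left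
            fun i2 => .inl ⟨hz, i2⟩), union_subset (sdiff_subset.trans y4)
            (sL.trans subset_union_right), fun j hj => disjoint_union_left.2
            ⟨?_, disjoint_left.2 fun z hz i => sL hz (sub j i)⟩⟩
      rcases Nat.lt_succ_iff_lt_or_eq.1 hj with h | rfl
      · exact (y5 j h).mono_left sdiff_subset
      · exact disjoint_left.2 fun z hz i => hz.2 (closedBall_subset_ball s1 i)
  obtain ⟨Y, y1, y2, y3, y4, y5⟩ := key N
  refine fun k => y3 (k.subset (y1.subset_connectedComponentIn y2 fun z hz i => ?_))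
  have zR := R1 z ((y4 hz).resolve_right fun i2 => i2 i)
  have := dist_triangle z P c0
  have := mem_closedBall.1 h1
  rcases i with rfl | i
  · linarith
  obtain ⟨j, hj⟩ := mem_iUnion.1 i
  rcases lt_or_ge j N with h | h
  · exact disjoint_left.1 (y5 j h) hz hj
  · linarith [mem_ball.1 (hN j h hj)]

end Pool.Agent.H.MP_1b82cc_an
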