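import Pool.Agent.H.MP_1b82cc_an.A

open Set Filter Topology Metric Polynomial

namespace Pool.Agent.H.MP_1b82cc_an

def Ap (L : Set ℂ) (g : ℂ → ℂ) : Prop := ∀ ε > 0, ∃ p : ℂ[X], ∀ z ∈ L, ‖p.eval z - g z‖ < ε

variable {L : Set ℂ}

lemma Ap.add {g h : ℂ → ℂ} (a : Ap L g) (b : Ap L h) : Ap L (g + h) := fun ε e => by
  obtain ⟨p, hp⟩ := a _ (half_pos e)
  obtain ⟨q, hq⟩ := b _ (half_pos e)
  refine ⟨p + q, fun z hz => ?_⟩
  have := norm_add_le (p.eval z - g z) (q.eval z - h z)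
  rw [eval_add, Pi.add_apply, add_sub_add_comm]
  linarith [hp z hz, hq z hz]

lemma Ap.poly (p : ℂ[X]) : Ap L fun z => p.eval z := fun ε e => ⟨p, by simpa using fun _ _ => e⟩

lemma Ap.mul (hL : IsCompact L) {g : ℂ → ℂ} (a : Ap L g) (q : ℂ[X]) :
    Ap L fun z => g z * q.eval z := fun ε e => by
  obtain ⟨M, M0, hM⟩ := (hL.image q.continuous).isBounded.exists_pos_norm_le
  obtain ⟨p, hp⟩ := a (ε / M) (by positivity)
  refine ⟨p * q, fun z hz => ?_⟩
  rw [eval_mul, ← sub_mul, norm_mul]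
  exact (mul_le_mul_of_nonneg_left (hM _ ⟨z, hz, rfl⟩) (norm_nonneg _)).trans_lt
    ((lt_div_iff₀ M0).1 (hp z hz))

lemma Ap.inv (hL : IsCompact L) (hn : L.Nonempty)
    (h : ∀ a ∉ L, ¬ Bornology.IsBounded (connectedComponentIn Lᶜ a)) {q : ℂ[X]}
    (hq : ∀ z ∈ L, q.eval z ≠ 0) : Ap L fun z => (q.eval z)⁻¹ := fun ε e => by
  have : CompactSpace L := isCompact_iff_compactSpace.mp hL
  have := hn.to_subtype
  let S := (polynomialFunctions L).topologicalClosure
  have hS : IsClosed (S : Set C(L, ℂ)) := Subalgebra.isClosed_topologicalClosure _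
  let x : S := ⟨(X : ℂ[X]).toContinuousMapOn L, Subalgebra.le_topologicalClosure _ ⟨X, trivial, rfl⟩⟩
  have hx : ∀ z : L, (x : C(L, ℂ)) z = z := fun z => by simp [x]
  have h1 : spectrum ℂ (x : C(L, ℂ)) = L := by
    rw [ContinuousMap.spectrum_eq_range]
    ext z
    exact ⟨by rintro ⟨w, rfl⟩; rw [hx]; exact w.2, fun h => ⟨⟨z, h⟩, hx _⟩⟩
  have h2 : spectrum ℂ x ⊆ L := fun a ha => by_contra fun k =>
    h a k (h1 ▸ Subalgebra.spectrum_isBounded_connectedComponentIn S x ha)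
  have h3 : IsUnit (aeval x q) := by
    rw [← spectrum.zero_notMem_iff ℂ, spectrum.map_polynomial_aeval_of_nonempty _ _
      ((h1.symm ▸ hn).mono (spectrum.subset_subalgebra x))]
    rintro ⟨a, ha, k⟩
    exact hq a (h2 ha) k
  obtain ⟨y, hy⟩ := h3.exists_right_inv
  obtain ⟨_, ⟨F, -, rfl⟩, hF⟩ := Metric.mem_closure_iff.mp y.2 ε e
  refine ⟨F, fun z hz => ?_⟩
  have k := congrArg (fun s : S => (s : C(L, ℂ)) ⟨z, hz⟩) hy
  have k2 := aeval_algHom_apply ((ContinuousMap.evalAlgHom ℂ ℂ (⟨z, hz⟩ : L)).comp S.val) x q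
  have := (ContinuousMap.dist_apply_le_dist ⟨z, hz⟩).trans_lt hF
  simp [hx] at k k2
  rw [← k2] at k
  rwa [dist_comm, dist_eq_norm, eq_inv_of_mul_eq_one_right k] at this

variable {c : ℕ → ℂ} {r : ℕ → ℝ} {P : ℂ}

lemma ind (hr : ∀ n, 0 < r n) (hd : Pairwise (Function.onFun Disjoint fun n => closedBall (c n) (r n)))
    (hP : ∀ ε > 0, ∀ᶠ n in atTop, closedBall (c n) (r n) ⊆ ball P ε) {j : ℕ}
    (hj : P ∉ closedBall (c j) (r j)) :
    Ap ({P} ∪ ⋃ n, closedBall (c n) (r n)) ((closedBall (c j) (r j)).indicator 1) := fun ε e => by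
  obtain ⟨ρ, p1, p2⟩ := sep hd hP hj
  obtain ⟨σ, s1, s2⟩ := exists_between p1
  have s0 := (hr j).trans s1
  have t1 := tendsto_pow_atTop_nhds_zero_of_lt_one (div_pos (hr j) s0).le ((div_lt_one s0).2 s1)
  have t2 := tendsto_pow_atTop_atTop_of_one_lt ((one_lt_div s0).2 s2)
  have m0 : 0 < min (1 / 2) (ε / 4) := by positivity
  obtain ⟨n, n1, n2⟩ := ((t1.eventually (gt_mem_nhds m0)).and (t2.eventually_gt_atTop (1 + 2 / ε))).exists
  have k : ∀ z ∈ {P} ∪ ⋃ n, closedBall (c n) (r n), 1 + ((z - c j) / σ) ^ n ≠ 0 ∧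
      ‖(1 + ((z - c j) / σ) ^ n)⁻¹ - (closedBall (c j) (r j)).indicator 1 z‖ ≤ ε / 2 := fun z hz => by
    have a : ‖((z - c j) / σ) ^ n‖ = (dist z (c j) / σ) ^ n := by
      rw [norm_pow, norm_div, Complex.norm_real, Real.norm_of_nonneg s0.le, dist_eq_norm]
    generalize ((z - c j) / σ) ^ n = w at a
    by_cases i : z ∈ closedBall (c j) (r j)
    · have b : ‖w‖ < min (1 / 2) (ε / 4) := a.trans_lt (lt_of_le_of_lt (by gcongr; exact i) n1)
      obtain ⟨b1, b2⟩ := lt_min_iff.1 b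
      have d := norm_sub_le (1 + w) w
      rw [add_sub_cancel_right, norm_one] at d
      have d2 : 1 + w ≠ 0 := norm_pos_iff.1 (by linarith)
      refine ⟨d2, ?_⟩
      rw [indicator_of_mem i, Pi.one_apply, show (1 + w)⁻¹ - 1 = -w / (1 + w) by field_simp; ring,
        norm_div, norm_neg, div_le_iff₀ (by linarith)]
      nlinarith
    · have b : 1 + 2 / ε < ‖w‖ := n2.trans_le (le_of_le_of_eq (by
        gcongr; exacts [(div_pos (s0.trans s2) s0).le, p2 z hz i]) a.symm)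
      have d := norm_sub_le (1 + w) 1
      rw [add_sub_cancel_left, norm_one] at d
      have d1 : 0 < 2 / ε := by positivity
      refine ⟨norm_pos_iff.1 (by linarith), ?_⟩
      rw [indicator_of_notMem i, sub_zero, norm_inv, ← inv_div]
      gcongr
      linarith
  obtain ⟨p, hp⟩ := Ap.inv (by simpa using cpt hP univ) ⟨P, .inl rfl⟩ (fun a ha => esc hd hP ha)
    (q := 1 + (C (σ : ℂ)⁻¹ * (X - C (c j))) ^ n) (fun z hz => by simpa [inv_mul_eq_div] using (k z hz).1)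
    _ (half_pos e)
  refine ⟨p, fun z hz => (norm_sub_le_norm_sub_add_norm_sub _ (1 + ((z - c j) / σ) ^ n)⁻¹ _).trans_lt ?_⟩
  have := hp z hz
  simp only [eval_add, eval_one, eval_pow, eval_mul, eval_C, eval_sub, eval_X, inv_mul_eq_div] at this
  linarith [(k z hz).2]

lemma main (hr : ∀ n, 0 < r n) (hd : Pairwise (Function.onFun Disjoint fun n => closedBall (c n) (r n)))
    (hP : ∀ ε > 0, ∀ᶠ n in atTop, closedBall (c n) (r n) ⊆ ball P ε) {f : ℂ → OnePoint ℂ}
    (hf : InF ({P} ∪ ⋃ n, closedBall (c n) (r n)) f) {ε : ℝ} (e : 0 < ε) :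
    ∃ p : ℂ[X], ∀ z ∈ {P} ∪ ⋃ n, closedBall (c n) (r n), chi (p.eval z : ℂ) (f z) < ε := by
  classical
  have hL : IsCompact ({P} ∪ ⋃ n, closedBall (c n) (r n)) := by simpa using cpt hP univ
  set L := {P} ∪ ⋃ n, closedBall (c n) (r n)
  have sub : ∀ n, closedBall (c n) (r n) ⊆ L := fun n =>
    (subset_iUnion (fun n => closedBall (c n) (r n)) n).trans subset_union_right
  have e4 : 0 < ε / 4 := by positivity
  have b : ∀ n, ball (c n) (r n) ⊆ interior L := fun n =>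
    interior_maximal (ball_subset_closedBall.trans (sub n)) isOpen_ball
  have b2 : ∀ n, ball (c n) (r n) ⊆ connectedComponentIn (interior L) (c n) := fun n =>
    (convex_ball _ _).isPreconnected.subset_connectedComponentIn (mem_ball_self (hr n)) (b n)
  choose p hp using fun n => disc (hr n) e4 (hf.1.mono (sub n)) ((hf.2 _ (b n (mem_ball_self (hr n)))).imp
    (fun h z hz => h z (b2 n hz)) fun ⟨g, g1, g2⟩ => ⟨g, g1.mono (b2 n), fun z hz => g2 z (b2 n hz)⟩)
  obtain ⟨q, q1, q2⟩ : ∃ q : ℂ[X], dist (st (q.eval P : ℂ)) (st (f P)) < ε / 4 ∧ ∀ j,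
      P ∈ closedBall (c j) (r j) → ∀ z ∈ closedBall (c j) (r j),
        dist (st (q.eval z : ℂ)) (st (f z)) < ε / 4 := by
    by_cases h : ∃ j, P ∈ closedBall (c j) (r j)
    · obtain ⟨j, hj⟩ := h
      refine ⟨p j, hp j P hj, fun i hi => ?_⟩
      obtain rfl : i = j := by_contra fun e => disjoint_left.1 (hd e) hi hj
      exact hp i
    · obtain ⟨w, hw⟩ := near (f P) e4
      exact ⟨C w, by rwa [eval_C], fun j hj => (h ⟨j, hj⟩).elim⟩
  have ct : ContinuousWithinAt (fun z => dist (st (q.eval z : ℂ)) (st (f z))) L P :=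
    Tendsto.dist (st_c'.comp q.continuous).continuousWithinAt (st_c.comp_continuousOn hf.1 P (.inl rfl))
  obtain ⟨δ, d0, hδ⟩ := mem_nhdsWithin_iff.1 (ct.eventually (gt_mem_nhds q1))
  obtain ⟨N, hN⟩ := eventually_atTop.1 (hP δ d0)
  let F := (Finset.range N).filter fun j => P ∉ closedBall (c j) (r j)
  have a : Ap L (∑ j ∈ F, fun z => (closedBall (c j) (r j)).indicator 1 z * (p j - q).eval z) :=
    Finset.sum_induction _ _ (fun _ _ => Ap.add) (by simpa using! Ap.poly 0) fun j hj =>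
      (ind hr hd hP (Finset.mem_filter.1 hj).2).mul hL _
  obtain ⟨s, hs⟩ := (Ap.poly q).add a _ e4
  refine ⟨s, fun z hz => (chi_le _ _).trans_lt ?_⟩
  have h1 := (st_le _ _).trans_lt (hs z hz)
  rw [Pi.add_apply, Finset.sum_apply] at h1
  suffices ∀ w : ℂ, dist (st (s.eval z : ℂ)) (st w) < ε / 4 → dist (st w) (st (f z)) < ε / 4 →
      2 * dist (st (s.eval z : ℂ)) (st (f z)) < ε from this _ h1 (by
    by_cases k : ∃ j ∈ F, z ∈ closedBall (c j) (r j)
    · obtain ⟨j, j1, j2⟩ := k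
      rw [Finset.sum_eq_single_of_mem j j1 fun i _ i2 => by
        rw [indicator_of_notMem (disjoint_right.1 (hd i2) j2), zero_mul]]
      simpa [j2] using hp j z j2
    · rw [Finset.sum_eq_zero fun i i1 => by rw [indicator_of_notMem fun i2 => k ⟨i, i1, i2⟩, zero_mul],
        add_zero]
      rcases hz with rfl | h
      · exact q1
      obtain ⟨j, hj⟩ := mem_iUnion.1 h
      by_cases i : P ∈ closedBall (c j) (r j)
      · exact q2 j i z hj
      refine hδ ⟨hN j (not_lt.1 fun i2 => k ⟨j, ?_, hj⟩) hj, sub j hj⟩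
      exact Finset.mem_filter.2 ⟨Finset.mem_range.2 i2, i⟩)
  exact fun w a b => by linarith [dist_triangle (st (s.eval z : ℂ)) (st w) (st (f z))]

end Pool.Agent.H.MP_1b82cc_an
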