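import Mathlib

open Set

namespace Pool.Agent.H.MP_1b82cc_an

/-- the chordal distance on the Riemann sphere -/
noncomputable def chi (a b : OnePoint ℂ) : ℝ :=
  a.elim (b.elim 0 fun w => 1 / √(1 + ‖w‖ ^ 2)) fun z =>
    b.elim (1 / √(1 + ‖z‖ ^ 2)) fun w => ‖z - w‖ / (√(1 + ‖z‖ ^ 2) * √(1 + ‖w‖ ^ 2))

/-- continuous on L; on each component of the interior, identically infinite or holomorphic -/
def InF (L : Set ℂ) (f : ℂ → OnePoint ℂ) : Prop :=
  ContinuousOn f L ∧ ∀ x ∈ interior L,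
    (∀ z ∈ connectedComponentIn (interior L) x, f z = OnePoint.infty) ∨
    ∃ g : ℂ → ℂ, DifferentiableOn ℂ g (connectedComponentIn (interior L) x) ∧
      ∀ z ∈ connectedComponentIn (interior L) x, f z = g z

end Pool.Agent.H.MP_1b82cc_an
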